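import Mathlib

/-!
# A normal space with a functionally `G_δ` subset that is not `1`-embedded

We answer question Q1 of `MP_aca66f_gt` positively.  The space is the plane in which every
point outside the countable set `ℚ × ℚ` is declared isolated and the points of `ℚ × ℚ` keep their
Euclidean neighbourhoods (a two dimensional Michael line).  It is hereditarily normal.
The set `E` is the complement of `ℚ × ℚ`.  It is discrete and functionally `G_δ`.
-/

set_option autoImplicit false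

namespace Pool.Agent.Results.MP_aca66f_gt.MichaelPlane

open Set Topology

section Definitions

variable {X : Type*} [TopologicalSpace X]

/-- `A` is functionally open: `A = f⁻¹((0,1])` for a continuous `f : X → [0,1]`. -/
def FunctionallyOpen (A : Set X) : Prop :=
  ∃ f : X → ℝ, Continuous f ∧ (∀ x, f x ∈ Icc (0 : ℝ) 1) ∧ A = f ⁻¹' Ioc (0 : ℝ) 1

/-- `A` is functionally closed: `A = f⁻¹(0)` for a continuous `f : X → [0,1]`. -/
def FunctionallyClosed (A : Set X) : Prop :=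
  ∃ f : X → ℝ, Continuous f ∧ (∀ x, f x ∈ Icc (0 : ℝ) 1) ∧ A = f ⁻¹' {0}

/-- `A` is functionally `G_δ`: a countable intersection of functionally open sets. -/
def FunctionallyGdelta (A : Set X) : Prop :=
  ∃ U : ℕ → Set X, (∀ n, FunctionallyOpen (U n)) ∧ A = ⋂ n, U n

/-- `A` is functionally `F_σ`: a countable union of functionally closed sets. -/
def FunctionallyFsigma (A : Set X) : Prop :=
  ∃ F : ℕ → Set X, (∀ n, FunctionallyClosed (F n)) ∧ A = ⋃ n, F n

/-- `E` (with the subspace topology) is `1`-embedded in `X`: functionally `F_σ` (resp. `G_δ`)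
subsets of `E` are traces on `E` of functionally `F_σ` (resp. `G_δ`) subsets of `X`. -/
def OneEmbedded (E : Set X) : Prop :=
  (∀ A : Set E, FunctionallyFsigma A →
    ∃ B : Set X, FunctionallyFsigma B ∧ A = Subtype.val ⁻¹' B) ∧
  (∀ A : Set E, FunctionallyGdelta A →
    ∃ B : Set X, FunctionallyGdelta B ∧ A = Subtype.val ⁻¹' B)

end Definitions

/-- The rational points of the plane. -/
def RatPts : Set (ℝ × ℝ) := {p | (∃ a : ℚ, (a : ℝ) = p.1) ∧ (∃ b : ℚ, (b : ℝ) = p.2)}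

/-- The plane, to be given the Michael type topology. -/
structure Mich : Type where
  /-- the underlying point -/
  pt : ℝ × ℝ

/-- Points outside `ℚ × ℚ` are isolated; points of `ℚ × ℚ` keep their Euclidean neighbourhoods. -/
instance michTop : TopologicalSpace Mich where
  IsOpen s := ∀ p : ℝ × ℝ, Mich.mk p ∈ s → p ∈ RatPts → Mich.mk ⁻¹' s ∈ 𝓝 p
  isOpen_univ := fun _ _ _ => Filter.univ_mem
  isOpen_inter := fun s t hs ht x hx hq => Filter.inter_mem (hs x hx.1 hq) (ht x hx.2 hq)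
  isOpen_sUnion := fun S hS x hx hq => by
    obtain ⟨t, htS, hxt⟩ := hx
    exact Filter.mem_of_superset (hS t htS x hxt hq)
      (preimage_mono (subset_sUnion_of_mem htS))

lemma isOpen_of_euclid {s : Set (ℝ × ℝ)} (hs : IsOpen s) : IsOpen (Mich.pt ⁻¹' s) :=
  fun _ hx _ => hs.mem_nhds hx

lemma isOpen_of_disj {s : Set Mich} (hs : ∀ x ∈ s, x.pt ∉ RatPts) : IsOpen s :=
  fun _ hx hq => absurd hq (hs _ hx)

lemma continuous_pt : Continuous Mich.pt := ⟨fun _ hs => isOpen_of_euclid hs⟩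

lemma continuousAt_euclid {Y : Type*} [TopologicalSpace Y] {f : Mich → Y} (hf : Continuous f)
    {p : ℝ × ℝ} (hp : p ∈ RatPts) : ContinuousAt (fun p : ℝ × ℝ => f ⟨p⟩) p := by
  intro V hV
  obtain ⟨W, hWV, hWo, hxW⟩ := mem_nhds_iff.1 hV
  have h := (hWo.preimage hf) p hxW hp
  exact Filter.mem_of_superset h (fun _ hy => hWV hy)

instance : T1Space Mich := by
  refine ⟨fun x => ?_⟩
  rw [← isOpen_compl_iff]
  have h : IsOpen (({x.pt}ᶜ : Set (ℝ × ℝ))) := isOpen_compl_singleton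
  have h2 : ({x}ᶜ : Set Mich) = Mich.pt ⁻¹' {x.pt}ᶜ := by
    ext ⟨y⟩
    cases x
    simp
  rw [h2]
  exact isOpen_of_euclid h

lemma not_mem_closure_euclid {t : Set Mich} {q : ℝ × ℝ} (hq : q ∈ RatPts)
    (h : Mich.mk q ∉ closure t) : q ∉ closure (Mich.mk ⁻¹' t) := by
  have ho : IsOpen ((closure t)ᶜ) := isClosed_closure.isOpen_compl
  have hn := ho q h hq
  intro hc
  obtain ⟨y, hy1, hy2⟩ := mem_closure_iff_nhds.1 hc _ hn
  exact hy1 (subset_closure hy2)

instance : CompletelyNormalSpace Mich := by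
  refine ⟨fun s t hst hts => ?_⟩
  -- the rational parts of `s` and `t` are separated in the Euclidean plane
  have h1 : Disjoint (closure (Mich.mk ⁻¹' s ∩ RatPts)) (Mich.mk ⁻¹' t ∩ RatPts) := by
    rw [Set.disjoint_left]
    rintro q hq ⟨hqt, hqQ⟩
    have h2 : Mich.mk q ∉ closure s := fun h => Set.disjoint_left.1 hst h hqt
    exact not_mem_closure_euclid hqQ h2 (closure_mono inter_subset_left hq)
  have h2 : Disjoint (Mich.mk ⁻¹' s ∩ RatPts) (closure (Mich.mk ⁻¹' t ∩ RatPts)) := by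
    rw [Set.disjoint_left]
    rintro q ⟨hqs, hqQ⟩ hq
    have h2 : Mich.mk q ∉ closure t := fun h => Set.disjoint_left.1 hts hqs h
    exact not_mem_closure_euclid hqQ h2 (closure_mono inter_subset_left hq)
  have h3 := completely_normal h1 h2
  rw [← separatedNhds_iff_disjoint] at h3
  obtain ⟨U, V, hU, hV, hsU, htV, hUV⟩ := h3
  rw [← separatedNhds_iff_disjoint]
  have hdisj : Disjoint s t := hst.mono_left subset_closure
  refine ⟨(Mich.pt ⁻¹' (U \ closure (Mich.mk ⁻¹' t))) ∪ (s \ Mich.pt ⁻¹' RatPts),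
    (Mich.pt ⁻¹' (V \ closure (Mich.mk ⁻¹' s))) ∪ (t \ Mich.pt ⁻¹' RatPts),
    ?_, ?_, ?_, ?_, ?_⟩
  · exact (isOpen_of_euclid (hU.sdiff isClosed_closure)).union
      (isOpen_of_disj (fun x hx => hx.2))
  · exact (isOpen_of_euclid (hV.sdiff isClosed_closure)).union
      (isOpen_of_disj (fun x hx => hx.2))
  · intro x hx
    by_cases hq : x.pt ∈ RatPts
    · left
      exact ⟨hsU ⟨hx, hq⟩, not_mem_closure_euclid hq (fun h => Set.disjoint_left.1 hts hx h)⟩
    · right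
      exact ⟨hx, hq⟩
  · intro x hx
    by_cases hq : x.pt ∈ RatPts
    · left
      exact ⟨htV ⟨hx, hq⟩, not_mem_closure_euclid hq (fun h => Set.disjoint_left.1 hst h hx)⟩
    · right
      exact ⟨hx, hq⟩
  · rw [Set.disjoint_left]
    rintro x (⟨hxU, hxt⟩ | ⟨hxs, hxQ⟩) (⟨hxV, hxs'⟩ | ⟨hxt', hxQ'⟩)
    · exact Set.disjoint_left.1 hUV hxU hxV
    · exact hxt (subset_closure hxt')
    · exact hxs' (subset_closure hxs)
    · exact Set.disjoint_left.1 hdisj hxs hxt'

instance : T5Space Mich where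

/-- The set `E`: the complement of the rational points. -/
def E : Set Mich := {x | x.pt ∉ RatPts}

lemma E_gdelta : FunctionallyGdelta E := by
  obtain ⟨e, he⟩ := exists_surjective_nat (ℚ × ℚ)
  refine ⟨fun n => {x : Mich | x.pt ≠ (((e n).1 : ℝ), ((e n).2 : ℝ))}, fun n => ?_, ?_⟩
  · refine ⟨fun x : Mich => min (dist x.pt (((e n).1 : ℝ), ((e n).2 : ℝ))) 1, ?_, ?_, ?_⟩
    · exact (continuous_pt.dist continuous_const).min continuous_const
    · intro x
      exact ⟨le_min dist_nonneg zero_le_one, min_le_right _ _⟩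
    · ext x
      simp
  · ext x
    constructor
    · intro hx
      refine mem_iInter.2 fun n h => hx ?_
      have h' : x.pt = (((e n).1 : ℝ), ((e n).2 : ℝ)) := h
      rw [h']
      exact ⟨⟨(e n).1, rfl⟩, ⟨(e n).2, rfl⟩⟩
    · rintro hx ⟨⟨a, ha⟩, ⟨b, hb⟩⟩
      obtain ⟨n, hn⟩ := he (a, b)
      refine mem_iInter.1 hx n ?_
      rw [hn]
      exact Prod.ext ha.symm hb.symm

instance : DiscreteTopology E := by
  rw [discreteTopology_iff_forall_isOpen]
  intro s
  rw [isOpen_induced_iff]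
  refine ⟨Subtype.val '' s, ?_, ?_⟩
  · apply isOpen_of_disj
    rintro _ ⟨x, _, rfl⟩
    exact x.2
  · exact preimage_image_eq s Subtype.val_injective

/-- Every subset of `E` is functionally `F_σ` in `E`. -/
lemma all_fsigma (A : Set E) : FunctionallyFsigma A := by
  classical
  refine ⟨fun _ => A, fun _ => ⟨fun x => if x ∈ A then 0 else 1, continuous_of_discreteTopology,
    fun x => ?_, ?_⟩, (iUnion_const A).symm⟩
  · by_cases h : x ∈ A <;> simp [h]
  · ext x
    by_cases h : x ∈ A <;> simp [h]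

lemma not_oneEmbedded : ¬ OneEmbedded E := by
  rintro ⟨h, -⟩
  obtain ⟨B, ⟨F, hF, hBF⟩, hB⟩ := h {x : E | Irrational x.1.pt.1} (all_fsigma _)
  choose g hgc hgI hgF using hF
  -- the Euclidean `G_δ` set of common continuity points contains the rational points
  have hDg : ∀ n, IsGδ {p : ℝ × ℝ | ContinuousAt (fun p : ℝ × ℝ => g n ⟨p⟩) p} :=
    fun n => IsGδ.setOfPred_continuousAt _
  have hDQ : ∀ n, ∀ p ∈ RatPts, ContinuousAt (fun p : ℝ × ℝ => g n ⟨p⟩) p :=
    fun n p hp => continuousAt_euclid (hgc n) hp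
  set D : Set (ℝ × ℝ) := ⋂ n, {p : ℝ × ℝ | ContinuousAt (fun p : ℝ × ℝ => g n ⟨p⟩) p} with hD
  have hDG : IsGδ D := IsGδ.iInter hDg
  set W : Set (ℝ × ℝ) := ⋂ n, interior {p : ℝ × ℝ | g n ⟨p⟩ ≠ 0} with hW
  have hWG : IsGδ W := IsGδ.iInter fun n => isOpen_interior.isGδ
  have hDW : IsGδ (D ∩ W) := hDG.inter hWG
  -- membership in the trace
  have hmem : ∀ p : ℝ × ℝ, p ∉ RatPts → (Irrational p.1 ↔ ∃ n, g n ⟨p⟩ = 0) := by
    intro p hp
    have h1 := Set.ext_iff.1 hB ⟨⟨p⟩, hp⟩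
    have h2 : ((⟨⟨p⟩, hp⟩ : E) ∈ {x : E | Irrational x.1.pt.1}) ↔ Irrational p.1 := Iff.rfl
    rw [← h2, h1, mem_preimage, hBF, mem_iUnion]
    refine exists_congr fun n => ?_
    rw [hgF n]
    exact Iff.rfl
  -- density of `D ∩ W`
  have hdense : Dense (D ∩ W) := by
    rw [dense_iff_inter_open]
    intro O hO hOne
    obtain ⟨⟨x0, y0⟩, hx0⟩ := hOne
    obtain ⟨U, V, hU, hV, hxU, hyV, hUV⟩ := isOpen_prod_iff.1 hO x0 y0 hx0
    obtain ⟨_, hqU, ⟨q, rfl⟩⟩ := (Rat.denseRange_cast (𝕜 := ℝ)).inter_open_nonempty U hU ⟨x0, hxU⟩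
    have hc : Continuous (fun y : ℝ => ((q : ℝ), y)) := by fun_prop
    have hDq : IsGδ ((fun y : ℝ => ((q : ℝ), y)) ⁻¹' D) := hDG.preimage hc
    have hDqd : Dense ((fun y : ℝ => ((q : ℝ), y)) ⁻¹' D) := by
      refine (Rat.denseRange_cast (𝕜 := ℝ)).mono ?_
      rintro _ ⟨r, rfl⟩
      exact mem_iInter.2 fun n => hDQ n _ ⟨⟨q, rfl⟩, ⟨r, rfl⟩⟩
    have hd := hDqd.inter_of_Gδ hDq IsGδ.setOfPred_irrational dense_irrational
    obtain ⟨y, hyV', hyD, hyirr⟩ := hd.inter_open_nonempty V hV ⟨y0, hyV⟩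
    refine ⟨((q : ℝ), y), hUV ⟨hqU, hyV'⟩, hyD, ?_⟩
    have hnot : (((q : ℝ), y) : ℝ × ℝ) ∉ RatPts := by
      rintro ⟨-, ⟨b, hb⟩⟩
      exact hyirr ⟨b, hb⟩
    have hirr : ¬ Irrational (((q : ℝ), y) : ℝ × ℝ).1 := by
      simp
    refine mem_iInter.2 fun n => ?_
    have hne : g n ⟨((q : ℝ), y)⟩ ≠ 0 := fun h0 => hirr ((hmem _ hnot).2 ⟨n, h0⟩)
    have hcn : ContinuousAt (fun p : ℝ × ℝ => g n ⟨p⟩) ((q : ℝ), y) := mem_iInter.1 hyD n
    rw [mem_interior_iff_mem_nhds]
    exact hcn.eventually_ne hne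
  -- the second dense `G_δ` set
  have hRG : IsGδ (Prod.fst ⁻¹' {x : ℝ | Irrational x} : Set (ℝ × ℝ)) :=
    IsGδ.setOfPred_irrational.preimage continuous_fst
  have hRd : Dense (Prod.fst ⁻¹' {x : ℝ | Irrational x} : Set (ℝ × ℝ)) :=
    dense_irrational.preimage isOpenMap_fst
  obtain ⟨p, ⟨-, hpW⟩, hpR⟩ := (hdense.inter_of_Gδ hDW hRG hRd).nonempty
  have hpE : p ∉ RatPts := by
    rintro ⟨⟨a, ha⟩, -⟩
    exact hpR ⟨a, ha⟩
  obtain ⟨n, hn⟩ := (hmem p hpE).1 hpR
  exact (interior_subset (mem_iInter.1 hpW n)) hn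

/-- **Answer to Q1**: there is a normal (even hereditarily normal, `T₁`) space with a functionally
`G_δ` subset which is not `1`-embedded. -/
theorem result : ∃ (X : Type) (_ : TopologicalSpace X), T4Space X ∧ T5Space X ∧
    ∃ E : Set X, FunctionallyGdelta E ∧ ¬ OneEmbedded E :=
  ⟨Mich, michTop, inferInstance, inferInstance, E, E_gdelta, not_oneEmbedded⟩

end Pool.Agent.Results.MP_aca66f_gt.MichaelPlane
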